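import Pool.Agent.helper11.TX.Spec2

set_option autoImplicit false

namespace Pool.Agent.helper11.TX

open Finset

theorem NS_cop (k j : ℕ) : Nat.Coprime (6 * k + j) 6 ↔ Nat.Coprime j 6 :=
  Nat.coprime_mul_left_add_left j 6 k

theorem NS_sum_eq (N : ℕ) :
    ∑ s ∈ S6 N, (s : ℝ) = ∑ s ∈ range (N + 1), if Nat.Coprime s 6 then (s : ℝ) else 0 := by
  rw [← sum_filter]
  refine sum_congr ?_ fun _ _ => rfl
  ext s
  simp only [S6, mem_filter, mem_Icc, mem_range]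
  constructor
  · rintro ⟨⟨h1, h2⟩, h3⟩
    exact ⟨by omega, h3⟩
  · rintro ⟨h1, h3⟩
    refine ⟨⟨?_, by omega⟩, h3⟩
    rcases Nat.eq_zero_or_pos s with h | h
    · rw [h] at h3
      exact absurd h3 (by decide)
    · exact h

theorem NS_step (N : ℕ) :
    ∑ s ∈ S6 (N + 1), (s : ℝ) = ∑ s ∈ S6 N, (s : ℝ) +
      if Nat.Coprime (N + 1) 6 then ((N + 1 : ℕ) : ℝ) else 0 := by
  rw [NS_sum_eq, NS_sum_eq, sum_range_succ _ (N + 1)]

theorem NS_vals (k : ℕ) :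
    ∑ s ∈ S6 (6 * k), (s : ℝ) = 6 * (k : ℝ) ^ 2 ∧
    ∑ s ∈ S6 (6 * k + 1), (s : ℝ) = 6 * (k : ℝ) ^ 2 + (6 * k + 1) ∧
    ∑ s ∈ S6 (6 * k + 2), (s : ℝ) = 6 * (k : ℝ) ^ 2 + (6 * k + 1) ∧
    ∑ s ∈ S6 (6 * k + 3), (s : ℝ) = 6 * (k : ℝ) ^ 2 + (6 * k + 1) ∧
    ∑ s ∈ S6 (6 * k + 4), (s : ℝ) = 6 * (k : ℝ) ^ 2 + (6 * k + 1) ∧
    ∑ s ∈ S6 (6 * k + 5), (s : ℝ) = 6 * (k : ℝ) ^ 2 + (6 * k + 1) + (6 * k + 5) := by
  have h1 : (Nat.Coprime (6 * k + 1) 6) := (NS_cop k 1).2 (by decide)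
  have h2 : ¬ (Nat.Coprime (6 * k + 2) 6) := fun h => absurd ((NS_cop k 2).1 h) (by decide)
  have h3 : ¬ (Nat.Coprime (6 * k + 3) 6) := fun h => absurd ((NS_cop k 3).1 h) (by decide)
  have h4 : ¬ (Nat.Coprime (6 * k + 4) 6) := fun h => absurd ((NS_cop k 4).1 h) (by decide)
  have h5 : (Nat.Coprime (6 * k + 5) 6) := (NS_cop k 5).2 (by decide)
  have e1 := NS_step (6 * k)
  have e2 := NS_step (6 * k + 1)
  have e3 := NS_step (6 * k + 2)
  have e4 := NS_step (6 * k + 3)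
  have e5 := NS_step (6 * k + 4)
  rw [if_pos h1] at e1
  rw [if_neg h2] at e2
  rw [if_neg h3] at e3
  rw [if_neg h4] at e4
  rw [if_pos h5] at e5
  have base : ∑ s ∈ S6 (6 * k), (s : ℝ) = 6 * (k : ℝ) ^ 2 := by
    clear h1 h2 h3 h4 h5 e1 e2 e3 e4 e5
    induction k with
    | zero => simp [S6]
    | succ k ih =>
      have h1 : (Nat.Coprime (6 * k + 1) 6) := (NS_cop k 1).2 (by decide)
      have h2 : ¬ (Nat.Coprime (6 * k + 2) 6) := fun h => absurd ((NS_cop k 2).1 h) (by decide)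
      have h3 : ¬ (Nat.Coprime (6 * k + 3) 6) := fun h => absurd ((NS_cop k 3).1 h) (by decide)
      have h4 : ¬ (Nat.Coprime (6 * k + 4) 6) := fun h => absurd ((NS_cop k 4).1 h) (by decide)
      have h5 : (Nat.Coprime (6 * k + 5) 6) := (NS_cop k 5).2 (by decide)
      have h6 : ¬ (Nat.Coprime (6 * k + 6) 6) := fun h => absurd ((NS_cop k 6).1 h) (by decide)
      have e1 := NS_step (6 * k)
      have e2 := NS_step (6 * k + 1)
      have e3 := NS_step (6 * k + 2)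
      have e4 := NS_step (6 * k + 3)
      have e5 := NS_step (6 * k + 4)
      have e6 := NS_step (6 * k + 5)
      rw [if_pos h1] at e1
      rw [if_neg h2] at e2
      rw [if_neg h3] at e3
      rw [if_neg h4] at e4
      rw [if_pos h5] at e5
      rw [if_neg h6] at e6
      have h7 : 6 * (k + 1) = 6 * k + 5 + 1 := by ring
      rw [h7, e6, e5, e4, e3, e2, e1, ih]
      push_cast
      ring
  refine ⟨base, ?_, ?_, ?_, ?_, ?_⟩
  · rw [e1, base]; push_cast; ring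
  · rw [e2, e1, base]; push_cast; ring
  · rw [e3, e2, e1, base]; push_cast; ring
  · rw [e4, e3, e2, e1, base]; push_cast; ring
  · rw [e5, e4, e3, e2, e1, base]; push_cast; ring

theorem NS_one (N : ℕ) : (N : ℝ) ^ 2 / 6 - N ≤ ∑ s ∈ S6 N, (s : ℝ) ∧
    ∑ s ∈ S6 N, (s : ℝ) ≤ (N : ℝ) ^ 2 / 6 + N := by
  obtain ⟨v0, v1, v2, v3, v4, v5⟩ := NS_vals (N / 6)
  have hN := Nat.div_add_mod N 6
  have hr : N % 6 < 6 := Nat.mod_lt _ (by norm_num)
  have hk0 : (0 : ℝ) ≤ ((N / 6 : ℕ) : ℝ) := Nat.cast_nonneg _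
  generalize N / 6 = k at *
  generalize N % 6 = r at *
  subst hN
  interval_cases r
  · rw [add_zero, v0]
    push_cast
    constructor
    · nlinarith
    · nlinarith
  · rw [v1]
    push_cast
    constructor
    · nlinarith
    · nlinarith
  · rw [v2]
    push_cast
    constructor
    · nlinarith
    · nlinarith
  · rw [v3]
    push_cast
    constructor
    · nlinarith
    · nlinarith
  · rw [v4]
    push_cast
    constructor
    · nlinarith
    · nlinarith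
  · rw [v5]
    push_cast
    constructor
    · nlinarith
    · nlinarith

theorem NS : NS_stmt := by
  refine ⟨NS_one, ?_⟩
  intro N l hl hlp
  have hl0 : 0 < l := hlp.pos
  have hlr : (0 : ℝ) < l := by exact_mod_cast hl0
  have hsub : (S6 N).filter (fun s => l ∣ s) ⊆ (S6 (N / l)).image (fun m => l * m) := by
    intro s hs
    rw [mem_filter] at hs
    obtain ⟨h1, m, rfl⟩ := hs
    simp only [S6, mem_filter, mem_Icc] at h1
    rw [mem_image]
    refine ⟨m, ?_, rfl⟩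
    simp only [S6, mem_filter, mem_Icc]
    refine ⟨⟨?_, ?_⟩, h1.2.coprime_mul_left⟩
    · rcases Nat.eq_zero_or_pos m with h | h
      · rw [h, mul_zero] at h1
        omega
      · exact h
    · rw [Nat.le_div_iff_mul_le hl0, mul_comm]
      exact h1.1.2
  have h2 : ∑ s ∈ (S6 N).filter (fun s => l ∣ s), (s : ℝ) ≤
      ∑ s ∈ (S6 (N / l)).image (fun m => l * m), (s : ℝ) :=
    sum_le_sum_of_subset_of_nonneg hsub fun s _ _ => Nat.cast_nonneg s
  have h3 : ∑ s ∈ (S6 (N / l)).image (fun m => l * m), (s : ℝ) =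
      l * ∑ m ∈ S6 (N / l), (m : ℝ) := by
    rw [sum_image fun a _ b _ hab => Nat.eq_of_mul_eq_mul_left hl0 hab, mul_sum]
    exact sum_congr rfl fun m _ => by push_cast; ring
  have h4 := (NS_one (N / l)).2
  have h5 : ((N / l : ℕ) : ℝ) ≤ (N : ℝ) / l := Nat.cast_div_le
  have h6 : (0 : ℝ) ≤ ((N / l : ℕ) : ℝ) := Nat.cast_nonneg _
  have h7 : (((N / l : ℕ) : ℝ)) ^ 2 ≤ ((N : ℝ) / l) ^ 2 := pow_le_pow_left₀ h6 h5 2
  calc ∑ s ∈ (S6 N).filter (fun s => l ∣ s), (s : ℝ) ≤ l * ∑ m ∈ S6 (N / l), (m : ℝ) :=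
        h2.trans h3.le
    _ ≤ l * (((N : ℝ) / l) ^ 2 / 6 + (N : ℝ) / l) :=
        mul_le_mul_of_nonneg_left (by linarith) hlr.le
    _ = (N : ℝ) ^ 2 / (6 * l) + N := by
        field_simp

end Pool.Agent.helper11.TX
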